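import Pool.Agent.V5helper94.TM.Main

/-!
# The Mumford-Tate conjecture for abelian varieties and trilinear forms

Let `K` be an algebraic closure of a finitely generated field of characteristic zero, with an embedding
in `ℂ`, and let `k` be any subfield of `K` over which `K` is algebraic (for instance the finitely
generated field itself; `k = ℚ` if `K` is the field of algebraic numbers).

For a scheme `X` over `k` the graded pieces `Gr^W_w H^n_c(X_K)` of the cohomology with compact support
are motives over `K`. The Mumford-Tate conjecture for a motive `M` is used in the following form
(`Motives.MumfordTate`, equivalent by Tannakian duality to the equality of the Mumford-Tate group and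
the identity component of the `ℓ`-adic monodromy group): the `ℓ`-adic realizations of the motives in
the tensor category generated by `M` and the Tate motives are semisimple, and their Tate classes are
the linear combinations of the Hodge classes. `MumfordTateFor 𝒳` is the conjecture for all finite
direct sums of the motives `Gr^W_w H^n_c(X_K)` for the schemes `X` in the class `𝒳`.

**Theorem.** The following statements are equivalent:

* the Mumford-Tate conjecture for all abelian varieties over `K` (Q1);
* the conjecture for `H^1(X)`, for all smooth projective curves `X` over `K`;
* the conjecture for all finite direct sums of the motives `Gr^W_w H^n_c(X_K)`, for all separated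
  schemes `X` of finite type and of dimension at most one over `k`;
* the same for the cubic hypersurfaces `X : S(x, y, z) = 1`, where `S` is a trilinear form over `k` and
  one of the three blocks of variables has at most three variables (the other two blocks are
  arbitrary: a net of matrices of any size).

For these schemes and hypersurfaces `Gr^W_(2v) H^n_c(X_K)` is a direct summand of a sum of copies of
`ℚ(-v)`, and `Gr^W_(2v+1) H^n_c(X_K)` is a direct summand of `H^1(A)(-v)` for an abelian variety `A`.
Conversely, `H^1` of every abelian variety over `K` is a direct summand of a finite direct sum of
Tate twists of such motives `Gr^W_w H^n_c(Y_K)`, `Y : S(x, y, z) = 1`. If `K` is the field of algebraic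
numbers, the conjecture for the cubic hypersurfaces with rational coefficients implies, by
specialization, the conjecture for all abelian varieties over all fields.

Idea of the proof. The category of motives is semisimple, so that in the localization sequences
the property to have graded pieces of this type passes from two of the three schemes to the third;
this is combined with smooth compactifications of curves, the Albanese variety, the weak Lefschetz
theorem and the geometric theorems on trilinear forms: the hypersurface `S(x, y, z) = 1` is an affine
bundle over the complement of `S(x, y, ·) = 0`, and every affine scheme of dimension at most one is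
obtained from such schemes.
-/

set_option autoImplicit false

open CategoryTheory CategoryTheory.Limits AlgebraicGeometry MonoidalCategory
  Pool.Agent.Y116.UV Pool.Agent.V5helper77.GW Pool.Agent.V5helper94.TM

namespace Pool.Agent.Results.MP_33b3f9_ag.TrilinearForms

section defs

variable {k K : Type} [Field k] [Field K] {ℓ : ℕ} [Fact ℓ.Prime] (T : Motives k K ℓ)

/-- The Mumford-Tate conjecture for all abelian varieties over `K`. -/
def AbelianVarieties : Prop := ∀ A, IsAbVar A → T.MumfordTate (T.H 1 A)

/-- The Mumford-Tate conjecture for `H^1(X)`, for all smooth projective curves `X` over `K`. -/
def Curves : Prop := ∀ X, SmProjUpTo 1 X → T.MumfordTate (T.H 1 X)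

/-- `Gr^W_(2v) H^n_c(X_K)` is a direct summand of a finite direct sum of copies of `ℚ(-v)`, and
`Gr^W_(2v+1) H^n_c(X_K)` is a direct summand of `H^1(A)(-v)`, `A` an abelian variety. -/
def HasAbelianPieces (X : Sch k) : Prop := ∀ v n : ℤ,
  (∃ N, Sums (fun M => M = T.L v) N ∧ Summand (T.V (2 * v) n X) N) ∧
    ∃ A, IsAbVar A ∧ Summand (T.V (2 * v + 1) n X) (T.tw v (T.H 1 A))

/-- `M` is a direct summand of a finite direct sum of Tate twists of motives `Gr^W_w H^n_c(Y_K)`, for
cubic hypersurfaces `Y : S(x, y, z) = 1`, `S` a trilinear form over `k` with a block of at most three
variables (and for the point). -/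
def FromCubics (M : T.C) : Prop := ∃ N, Sums (T.Twists (CubicsUpTo 3)) N ∧ Summand M N

end defs

/-- **The Mumford-Tate conjecture for abelian varieties and trilinear forms.** Let `T` be a theory of
motives over the algebraically closed field `K` with the properties `IsTheory`. The following are
equivalent: the Mumford-Tate conjecture for all abelian varieties over `K`; (1) for all smooth
projective curves; (2) for all finite direct sums of `Gr^W_w H^n_c(X_K)`, `X` over `k` of dimension at
most one; (3) for all finite direct sums of `Gr^W_w H^n_c(X_K)`, `X : S(x, y, z) = 1`, `S` a trilinear
form over `k` with a block of at most three variables. (4) The motives in (2) and (3) of the weights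
`2 v` and `2 v + 1` are direct summands of sums of copies of `ℚ(-v)`, and of `H^1(A)(-v)`, `A` an
abelian variety. (5) `H^1(X)`, for every smooth projective variety `X` over `K`, for instance every
abelian variety, is a direct summand of a finite direct sum of Tate twists of the motives in (3).
(6) The conjecture for (3) implies the conjecture for abelian varieties over all fields `K'` whose
varieties have specializations over `K`. -/
theorem result {k K : Type} [Field k] [Field K] [CharZero k] [CharZero K] [IsAlgClosed K]
    {ℓ : ℕ} [Fact ℓ.Prime] (T : Motives k K ℓ) (hT : IsTheory T) (hk : Hironaka k)
    (hK : Hironaka K) :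
    (AbelianVarieties T ↔ Curves T) ∧
    (AbelianVarieties T ↔ T.MumfordTateFor (SchemesUpTo 1)) ∧
    (AbelianVarieties T ↔ T.MumfordTateFor (CubicsUpTo 3)) ∧
    (∀ X, SchemesUpTo 1 X ∨ CubicsUpTo 3 X → HasAbelianPieces T X) ∧
    (∀ X, IsSmProj X → FromCubics T (T.H 1 X)) ∧
    ∀ {k' K' : Type} [Field k'] [Field K'] (T' : Motives k' K' ℓ), Specializes 1 T' T →
      T.MumfordTateFor (CubicsUpTo 3) → AbelianVarieties T' := by
  refine ⟨one_curves hT, one_schemes hT hk hK, one_cubics hT hk hK,
    fun X hX v n => one_pieces hT hk hK hX v n, fun X hX => one_gen hT hk hX, ?_⟩
  intro k' K' _ _ T' hs h A' hA'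
  obtain ⟨X, hX, h1⟩ := hs A' hA'.1
  obtain ⟨A, hA, e⟩ := hT.albanese X hX
  exact h1 (mt_summand (Summand.of_iso e) ((one_cubics hT hk hK).2 h A hA))

end Pool.Agent.Results.MP_33b3f9_ag.TrilinearForms
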